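import Pool.Agent.D0H96.UR.Stm2

/-!
Project UR (helper96): the generator on functions of the difference of two coupled configurations.
-/

set_option autoImplicit false

open Filter Topology MeasureTheory Set

namespace Pool.Agent.D0H52.UR

open Pool.Agent.D0H96.UR Pool.Agent.D0H96.UR.Chain

theorem sact_sub (s : Slot) {η ζ : Cfg} (h : η ≤ ζ) : sact s ζ - sact s η = (ζ - η) +
    Finsupp.single (s.1 - 1) (if η s.1 < s.2 ∧ s.2 ≤ ζ s.1 then 1 else 0) +
    Finsupp.single (s.1 + 1) (if η s.1 < s.2 ∧ s.2 ≤ ζ s.1 then 1 else 0) := by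
  have h1 := bl_sub (i := s.2) (h s.1)
  rw [← h1, Finsupp.single_sub, Finsupp.single_sub]
  unfold sact
  abel

theorem gen_diff {ι : Type} [Fintype ι] (i j : ι) (f : Cfg → ℝ) (x : ι → Cfg) (h : x i ≤ x j) :
    (TC ι).gen (fun y => f (y j - y i)) x = ∑ k ∈ (x j - x i).support, (((x j - x i) k : ℤ) : ℝ) *
      (f ((x j - x i) + Finsupp.single (k - 1) 1 + Finsupp.single (k + 1) 1) - f (x j - x i)) := by
  classical
  obtain ⟨D, hD⟩ : ∃ D : Cfg, D = x j - x i := ⟨_, rfl⟩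
  obtain ⟨Δ, hΔ⟩ : ∃ Δ : Finset Slot, Δ = D.support.sigma fun k => Finset.Ioc (x i k) (x j k) := ⟨_, rfl⟩
  have hmem : ∀ s : Slot, s ∈ Δ ↔ x i s.1 < s.2 ∧ s.2 ≤ x j s.1 := by
    intro s
    rw [hΔ, Finset.mem_sigma, Finset.mem_Ioc, Finsupp.mem_support_iff]
    refine ⟨fun h => h.2, fun h => ⟨fun h0 => ?_, h⟩⟩
    rw [hD, Finsupp.sub_apply] at h0
    omega
  rw [← hD]
  unfold Chain.gen
  show ∑ s ∈ Finset.univ.biUnion (fun i => smv (x i)), (f (sact s (x j) - sact s (x i)) - f (x j - x i)) = _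
  have h1 : Δ ⊆ Finset.univ.biUnion (fun i => smv (x i)) := by
    intro s hs
    rw [hmem] at hs
    rw [Finset.mem_biUnion]
    have h2 := bl_sub (i := s.2) (h s.1)
    rw [if_pos hs] at h2
    by_cases h3 : bl s.2 (x j s.1) = 0
    · refine ⟨i, Finset.mem_univ _, mem_smv.2 ?_⟩
      omega
    · exact ⟨j, Finset.mem_univ _, mem_smv.2 h3⟩
  rw [← Finset.sum_subset h1]
  · rw [hΔ, Finset.sum_sigma]
    refine Finset.sum_congr rfl fun k hk => ?_
    have h2 : ∀ m ∈ Finset.Ioc (x i k) (x j k),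
        f (sact ⟨k, m⟩ (x j) - sact ⟨k, m⟩ (x i)) - f (x j - x i) =
        f (D + Finsupp.single (k - 1) 1 + Finsupp.single (k + 1) 1) - f D := by
      intro m hm
      rw [Finset.mem_Ioc] at hm
      rw [sact_sub ⟨k, m⟩ h, if_pos hm, hD]
    rw [Finset.sum_congr rfl h2, Finset.sum_const, nsmul_eq_mul, Int.card_Ioc]
    congr 1
    have h3 : ((x j k - x i k).toNat : ℤ) = D k := by
      rw [hD, Finsupp.sub_apply, Int.toNat_of_nonneg]
      have := h k
      omega
    exact_mod_cast congrArg (fun z : ℤ => (z : ℝ)) h3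
  · intro s _ hs
    rw [hmem] at hs
    rw [sact_sub s h, if_neg hs, Finsupp.single_zero, Finsupp.single_zero, add_zero, add_zero, sub_self]

/-- The set of ordered configurations is invariant. -/
theorem ord_inv {ι : Type} [Fintype ι] (i j : ι) : ∀ x ∈ {x : ι → Cfg | x i ≤ x j}, ∀ s ∈ (TC ι).mv x,
    (TC ι).act s x ∈ {x : ι → Cfg | x i ≤ x j} := by
  intro x hx s _
  have hx' : x i ≤ x j := hx
  show sact s (x i) ≤ sact s (x j)
  rw [← sub_nonneg, sact_sub s hx']
  have h0 : (0 : ℤ) ≤ (if x i s.1 < s.2 ∧ s.2 ≤ x j s.1 then 1 else 0) := by split_ifs <;> norm_num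
  refine add_nonneg (add_nonneg (sub_nonneg.2 hx') ?_) ?_
  · exact Finsupp.single_nonneg.2 h0
  · exact Finsupp.single_nonneg.2 h0

theorem t_EXPB (hMP : S_MP) (hEX : S_EX) : S_EXPB := by
  intro ι _ i j T l ℓ z α hT hc hd h0 hl hℓ x hx
  obtain ⟨g, hg⟩ : ∃ g : ℝ → (ι → Cfg) → ℝ, g = fun t y =>
    Real.exp (l * ℓ - Lw (fun k => α t (k - z)) (y j - y i)) := ⟨_, rfl⟩
  have hsol := P_sol hEX (TC ι) (ind_bdd {y : ι → Cfg | ((y j z : ℝ) - (y i z : ℝ)) ≤ ℓ})
  have key := hsol.le hMP (ord_inv i j) hT (g := g) (B := 0) ?_ ?_ ?_ ?_ x hx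
  · rw [hg] at key
    exact key
  · intro y _
    rw [hg]
    refine ContinuousOn.rexp (continuousOn_const.sub ?_)
    unfold Lw Finsupp.sum
    exact continuousOn_finsetSum _ fun k _ => continuousOn_const.mul (hc (k - z))
  · intro y hy t ht
    have hy' : y i ≤ y j := hy
    obtain ⟨D, hD⟩ : ∃ D : Cfg, D = y j - y i := ⟨_, rfl⟩
    choose d hd1 hd2 using fun k => hd k t ht
    have hder : HasDerivAt (fun t => Lw (fun k => α t (k - z)) D) (∑ k ∈ D.support, (D k : ℝ) * d (k - z)) t := by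
      unfold Lw Finsupp.sum
      exact HasDerivAt.fun_sum fun k _ => (hd1 (k - z)).const_mul _
    have hgt : ∀ t, g t y = Real.exp (l * ℓ - Lw (fun k => α t (k - z)) D) := by
      intro t; rw [hg, hD]
    refine ⟨Real.exp (l * ℓ - Lw (fun k => α t (k - z)) D) * -(∑ k ∈ D.support, (D k : ℝ) * d (k - z)), ?_, ?_⟩
    · have : (fun t => g t y) = fun t => Real.exp (l * ℓ - Lw (fun k => α t (k - z)) D) := funext hgt
      rw [this]
      exact (hder.const_sub (l * ℓ)).exp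
    · have e1 : g t = fun y : ι → Cfg => (fun η : Cfg => Real.exp (l * ℓ - Lw (fun k => α t (k - z)) η)) (y j - y i) := by
        rw [hg]
      rw [e1, gen_diff i j (fun η : Cfg => Real.exp (l * ℓ - Lw (fun k => α t (k - z)) η)) y hy', ← hD]
      have e2 : ∀ k, Real.exp (l * ℓ - Lw (fun k => α t (k - z))
          (D + Finsupp.single (k - 1) 1 + Finsupp.single (k + 1) 1)) =
          Real.exp (l * ℓ - Lw (fun k => α t (k - z)) D) *
            Real.exp (-(α t (k - z - 1) + α t (k - z + 1))) := by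
        intro k
        rw [← Real.exp_add, Lw_add, Lw_add, Lw_single, Lw_single]
        have a1 : k - 1 - z = k - z - 1 := by ring
        have a2 : k + 1 - z = k - z + 1 := by ring
        congr 1
        simp only [a1, a2]
        push_cast
        ring
      have e3 : Real.exp (l * ℓ - Lw (fun k => α t (k - z)) D) * -(∑ k ∈ D.support, (D k : ℝ) * d (k - z)) =
          ∑ k ∈ D.support, (D k : ℝ) * (Real.exp (l * ℓ - Lw (fun k => α t (k - z)) D) * (-d (k - z))) := by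
        rw [← Finset.sum_neg_distrib, Finset.mul_sum]
        exact Finset.sum_congr rfl fun k _ => by ring
      simp only [e2]
      rw [e3]
      refine Finset.sum_le_sum fun k _ => ?_
      have hDk : (0 : ℝ) ≤ D k := by
        have : 0 ≤ D k := by
          rw [hD, Finsupp.sub_apply]
          exact sub_nonneg.2 (hy' k)
        exact_mod_cast this
      refine mul_le_mul_of_nonneg_left ?_ hDk
      have hE := Real.exp_pos (l * ℓ - Lw (fun k => α t (k - z)) D)
      have h3 := hd2 (k - z)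
      nlinarith [mul_le_mul_of_nonneg_left h3 hE.le]
  · intro y _ t _
    rw [hg]
    exact (Real.exp_pos _).le
  · intro y hy
    have hy' : y i ≤ y j := hy
    by_cases hm : y ∈ {y : ι → Cfg | ((y j z : ℝ) - (y i z : ℝ)) ≤ ℓ}
    · rw [ind_of_mem hm, hg]
      have hm' : ((y j z : ℝ) - (y i z : ℝ)) ≤ ℓ := hm
      rw [Real.one_le_exp_iff]
      obtain ⟨D, hD⟩ : ∃ D : Cfg, D = y j - y i := ⟨_, rfl⟩
      rw [← hD]
      have hDk : ∀ k, (0 : ℝ) ≤ D k := by
        intro k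
        have : 0 ≤ D k := by
          rw [hD, Finsupp.sub_apply]
          exact sub_nonneg.2 (hy' k)
        exact_mod_cast this
      have h3 : Lw (fun k => α 0 (k - z)) D ≤ l * D z := by
        unfold Lw Finsupp.sum
        calc ∑ k ∈ D.support, (D k : ℝ) * α 0 (k - z) ≤ ∑ k ∈ D.support, (D k : ℝ) * (if k = z then l else 0) := by
              refine Finset.sum_le_sum fun k _ => mul_le_mul_of_nonneg_left ?_ (hDk k)
              have h4 := h0 (k - z)
              simp only [sub_eq_zero] at h4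
              exact h4
          _ ≤ l * D z := by
              simp only [mul_ite, mul_zero]
              rw [Finset.sum_ite_eq']
              split_ifs
              · exact (mul_comm _ _).le
              · exact mul_nonneg hl (hDk z)
      have h4 : (D z : ℝ) ≤ ℓ := by
        rw [hD, Finsupp.sub_apply]
        push_cast
        exact hm'
      have h5 := mul_le_mul_of_nonneg_left h4 hl
      linarith
    · rw [ind_of_notMem hm, hg]
      exact (Real.exp_pos _).le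

/-! ### DIF -/

theorem Lw_nonneg {a : ℤ → ℝ} (ha : ∀ k, 0 ≤ a k) {D : Cfg} (hD : ∀ k, 0 ≤ D k) : 0 ≤ Lw a D := by
  unfold Lw Finsupp.sum
  refine Finset.sum_nonneg fun k _ => mul_nonneg ?_ (ha k)
  exact_mod_cast hD k

theorem ind_diff {N : ℕ} {E : Set (ℤ → ℤ)} (hE : Loc N E) {η ζ : Cfg} (h : η ≤ ζ) :
    |ind {ξ : Cfg | (⇑ξ : ℤ → ℤ) ∈ E} ζ - ind {ξ : Cfg | (⇑ξ : ℤ → ℤ) ∈ E} η| ≤
      ∑ x ∈ Finset.Icc (-(N : ℤ)) N, (((ζ - η) x : ℤ) : ℝ) := by
  have hn : ∀ x, (0 : ℤ) ≤ (ζ - η) x := fun x => by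
    rw [Finsupp.sub_apply]; exact sub_nonneg.2 (h x)
  by_cases ha : ∀ x ∈ Finset.Icc (-(N : ℤ)) N, (ζ - η) x = 0
  · have h1 : (⇑ζ : ℤ → ℤ) ∈ E ↔ (⇑η : ℤ → ℤ) ∈ E := hE _ _ fun x hx => by
      have h2 := ha x (Finset.mem_Icc.2 (abs_le.1 hx))
      rw [Finsupp.sub_apply] at h2
      omega
    have h2 : ind {ξ : Cfg | (⇑ξ : ℤ → ℤ) ∈ E} ζ = ind {ξ : Cfg | (⇑ξ : ℤ → ℤ) ∈ E} η := by
      by_cases h3 : (⇑ζ : ℤ → ℤ) ∈ E
      · rw [ind_of_mem (E := {ξ : Cfg | (⇑ξ : ℤ → ℤ) ∈ E}) h3,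
          ind_of_mem (E := {ξ : Cfg | (⇑ξ : ℤ → ℤ) ∈ E}) (h1.1 h3)]
      · rw [ind_of_notMem (E := {ξ : Cfg | (⇑ξ : ℤ → ℤ) ∈ E}) h3,
          ind_of_notMem (E := {ξ : Cfg | (⇑ξ : ℤ → ℤ) ∈ E}) fun h4 => h3 (h1.2 h4)]
    rw [h2, sub_self, abs_zero]
    exact Finset.sum_nonneg fun x _ => by exact_mod_cast hn x
  · push Not at ha
    obtain ⟨x, hx, hx0⟩ := ha
    have h1 : (1 : ℝ) ≤ (((ζ - η) x : ℤ) : ℝ) := by
      have : 1 ≤ (ζ - η) x := by
        have := hn x
        omega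
      exact_mod_cast this
    have h2 : (((ζ - η) x : ℤ) : ℝ) ≤ ∑ x ∈ Finset.Icc (-(N : ℤ)) N, (((ζ - η) x : ℤ) : ℝ) :=
      Finset.single_le_sum (f := fun x => (((ζ - η) x : ℤ) : ℝ)) (fun y _ => by exact_mod_cast hn y) hx
    have h3 := ind_nonneg {ξ : Cfg | (⇑ξ : ℤ → ℤ) ∈ E} ζ
    have h4 := ind_le_one {ξ : Cfg | (⇑ξ : ℤ → ℤ) ∈ E} ζ
    have h5 := ind_nonneg {ξ : Cfg | (⇑ξ : ℤ → ℤ) ∈ E} η
    have h6 := ind_le_one {ξ : Cfg | (⇑ξ : ℤ → ℤ) ∈ E} η
    rw [abs_le]
    constructor <;> linarith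

theorem t_DIF (hMP : S_MP) (hEX : S_EX) (hHK : S_HK) (hHM : S_HM) : S_DIF := by
  intro N E T j η hE hT
  obtain ⟨E', hE'⟩ : ∃ E' : Set Cfg, E' = {ξ : Cfg | (⇑ξ : ℤ → ℤ) ∈ E} := ⟨_, rfl⟩
  rw [← hE']
  obtain ⟨A, hA⟩ : ∃ A : ℝ → ℤ → ℝ, A = fun t k => ∑ x ∈ Finset.Icc (-(N : ℤ)) N,
    av (Finsupp.single x 1) t k := ⟨_, rfl⟩
  have hA1 : ∀ t k, A t k = Real.exp (2 * t) * ∑ x ∈ Finset.Icc (-(N : ℤ)) N, hk t (k - x) := by
    intro t k
    rw [hA, Finset.mul_sum]
    refine Finset.sum_congr rfl fun x _ => ?_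
    rw [av_single, one_mul]
  have hAd : ∀ t k, HasDerivAt (fun t => A t k) (A t (k - 1) + A t (k + 1)) t := by
    intro t k
    rw [hA]
    simp only
    rw [← Finset.sum_add_distrib]
    exact HasDerivAt.fun_sum fun x _ => av_deriv hHK.1 _ t k
  have hA0 : ∀ t k, 0 ≤ t → 0 ≤ A t k := by
    intro t k ht
    rw [hA1]
    exact mul_nonneg (Real.exp_pos _).le (Finset.sum_nonneg fun x _ => (hHM t ht).1 _)
  have hAz : ∀ D : Cfg, Lw (A 0) D = ∑ x ∈ Finset.Icc (-(N : ℤ)) N, ((D x : ℤ) : ℝ) := by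
    intro D
    unfold Lw Finsupp.sum
    have h1 : ∀ k, A 0 k = ∑ x ∈ Finset.Icc (-(N : ℤ)) N, if k = x then (1 : ℝ) else 0 := by
      intro k
      rw [hA1, mul_zero, Real.exp_zero, one_mul]
      refine Finset.sum_congr rfl fun x _ => ?_
      rw [hHK.2.1]
      simp only [sub_eq_zero]
    simp_rw [h1, Finset.mul_sum]
    rw [Finset.sum_comm]
    refine Finset.sum_congr rfl fun x _ => ?_
    simp only [mul_ite, mul_one, mul_zero]
    rw [Finset.sum_ite_eq']
    split_ifs with h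
    · rfl
    · rw [Finsupp.notMem_support_iff.1 h]; simp
  -- the coupled chain
  have hsol : (TC (Fin 2)).Sol (fun y => ind E' (y 1) + -ind E' (y 0))
      (fun t y => UC.P (ind E') t (y 1) + -UC.P (ind E') t (y 0)) := by
    have h1 := P_sol hEX UC (ind_bdd E')
    exact (h1.map (C' := TC (Fin 2)) (π := fun y => y 1) fun f x => gen_TC_eval 1 f x).add
      ((h1.map (C' := TC (Fin 2)) (π := fun y => y 0) fun f x => gen_TC_eval 0 f x).neg)
  have hle : ∀ (F : (Fin 2 → Cfg) → ℝ) (u : ℝ → (Fin 2 → Cfg) → ℝ), (TC (Fin 2)).Sol F u →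
      (∀ y : Fin 2 → Cfg, y 0 ≤ y 1 → F y ≤ ∑ x ∈ Finset.Icc (-(N : ℤ)) N, (((y 1 - y 0) x : ℤ) : ℝ)) →
      u T ![η, η + Finsupp.single j 1] ≤ A T j := by
    intro F u hu hF
    have key := hu.le hMP (ord_inv 0 1) hT (g := fun t y => Lw (A t) (y 1 - y 0)) (B := 0) ?_ ?_ ?_ ?_
      ![η, η + Finsupp.single j 1] ?_
    · refine key.trans (le_of_eq ?_)
      show Lw (A T) (η + Finsupp.single j 1 - η) = A T j
      rw [add_sub_cancel_left, Lw_single]
      simp
    · intro y _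
      unfold Lw Finsupp.sum
      exact continuousOn_finsetSum _ fun k _ => continuousOn_const.mul
        (fun t _ => (hAd t k).continuousAt.continuousWithinAt)
    · intro y hy t ht
      have hy' : y 0 ≤ y 1 := hy
      refine ⟨∑ k ∈ (y 1 - y 0).support, (((y 1 - y 0) k : ℤ) : ℝ) * (A t (k - 1) + A t (k + 1)), ?_, ?_⟩
      · unfold Lw Finsupp.sum
        exact HasDerivAt.fun_sum fun k _ => (hAd t k).const_mul _
      · rw [gen_diff 0 1 (Lw (A t)) y hy']
        refine le_of_eq (Finset.sum_congr rfl fun k _ => ?_)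
        rw [Lw_add, Lw_add, Lw_single, Lw_single]
        push_cast
        ring
    · intro y hy t ht
      have hy' : y 0 ≤ y 1 := hy
      exact Lw_nonneg (fun k => hA0 t k ht.1) fun k => by
        rw [Finsupp.sub_apply]; exact sub_nonneg.2 (hy' k)
    · intro y hy
      rw [hAz]
      exact hF y hy
    · show η ≤ η + Finsupp.single j 1
      exact le_add_of_nonneg_right (Finsupp.single_nonneg.2 zero_le_one)
  rw [← hA1, abs_le]
  have k1 := hle _ _ hsol fun y hy => by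
    have := ind_diff hE hy
    rw [← hE'] at this
    have h2 := (abs_le.1 this).2
    linarith
  have k2 := hle _ _ hsol.neg fun y hy => by
    have := ind_diff hE hy
    rw [← hE'] at this
    have h2 := (abs_le.1 this).1
    linarith
  have k1' : UC.P (ind E') T (η + Finsupp.single j 1) + -UC.P (ind E') T η ≤ A T j := k1
  have k2' : -(UC.P (ind E') T (η + Finsupp.single j 1) + -UC.P (ind E') T η) ≤ A T j := k2
  constructor <;> linarith

end Pool.Agent.D0H52.UR
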