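import Pool.Agent.D0H96.UR.Stm2

/-!
Project UR (helper96), module LAW: the law of the infinite system exists.
-/

set_option autoImplicit false

open Filter Topology MeasureTheory Set

namespace Pool.Agent.D0H52.UR

open Pool.Agent.D0H96.UR Pool.Agent.D0H96.UR.Chain

/-! ### Discrete laws -/

/-- The measure on `ℤ → ℤ` with weights `w`. -/
noncomputable def lawOf (w : Cfg → ℝ) : Measure (ℤ → ℤ) :=
  Measure.sum fun ξ : Cfg => ENNReal.ofReal (w ξ) • Measure.dirac (⇑ξ : ℤ → ℤ)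

theorem lawOf_apply {w : Cfg → ℝ} (hw : ∀ ξ, 0 ≤ w ξ) {E : Set (ℤ → ℤ)} {a : ℝ}
    (h : HasSum (fun ξ => ind {ξ : Cfg | (⇑ξ : ℤ → ℤ) ∈ E} ξ * w ξ) a) : lawOf w E = ENNReal.ofReal a := by
  unfold lawOf
  rw [Measure.sum_apply_of_countable, ← h.tsum_eq, ENNReal.ofReal_tsum_of_nonneg _ h.summable]
  · refine tsum_congr fun ξ => ?_
    rw [Measure.smul_apply, Measure.dirac_apply, smul_eq_mul]
    by_cases hE : (⇑ξ : ℤ → ℤ) ∈ E
    · rw [Set.indicator_of_mem hE, Pi.one_apply, mul_one,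
        ind_of_mem (E := {ξ : Cfg | (⇑ξ : ℤ → ℤ) ∈ E}) hE, one_mul]
    · rw [Set.indicator_of_notMem hE, mul_zero,
        ind_of_notMem (E := {ξ : Cfg | (⇑ξ : ℤ → ℤ) ∈ E}) hE, zero_mul, ENNReal.ofReal_zero]
  · intro ξ
    exact mul_nonneg (ind_nonneg _ _) (hw ξ)

/-! ### The finite systems -/

theorem card_pow (R : ℕ) : ((Finset.Icc (-(R : ℤ)) R).powerset.card : ℝ) = 2 ^ (2 * R + 1) := by
  rw [Finset.card_powerset, Int.card_Icc]
  have : (((R : ℤ) + 1 - -(R : ℤ)).toNat) = 2 * R + 1 := by omega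
  rw [this]
  push_cast
  ring

/-- The weights of the law of the finite system. -/
noncomputable def wt (R : ℕ) (t : ℝ) (ξ : Cfg) : ℝ :=
  (∑ S ∈ (Finset.Icc (-(R : ℤ)) R).powerset, ptr t (ini R S) ξ) / 2 ^ (2 * R + 1)

theorem hasSum_wt (hMP : S_MP) (hEX : S_EX) (R : ℕ) {t : ℝ} (ht : 0 ≤ t) (E : Set Cfg) :
    HasSum (fun ξ => ind E ξ * wt R t ξ) (pr R t E) := by
  unfold wt pr
  have h := hasSum_sum (fun (S : Finset ℤ) (_ : S ∈ (Finset.Icc (-(R : ℤ)) R).powerset) =>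
    hasSum_ptr hMP hEX E ht (ini R S))
  have h2 := h.div_const ((2 : ℝ) ^ (2 * R + 1))
  refine h2.congr_fun fun ξ => ?_
  rw [← Finset.mul_sum, mul_div_assoc]

theorem pr_univ (hMP : S_MP) (hEX : S_EX) (R : ℕ) {t : ℝ} (ht : 0 ≤ t) : pr R t univ = 1 := by
  unfold pr
  have h1 : ∀ η : Cfg, UC.P (ind univ) t η = 1 := by
    intro η
    have h := hasSum_ptr hMP hEX univ ht η
    have h2 := (isUrn_ptr hMP hEX).total t η ht
    refine h.unique (h2.congr_fun fun ξ => ?_)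
    rw [ind_of_mem (mem_univ ξ), one_mul]
  rw [Finset.sum_congr rfl fun S _ => h1 (ini R S), Finset.sum_const, nsmul_eq_mul, mul_one, card_pow]
  exact div_self (by positivity)

theorem prob_eq (hMP : S_MP) (hEX : S_EX) (R : ℕ) {t : ℝ} (ht : 0 ≤ t) (E : Set (ℤ → ℤ)) :
    prob ptr R t E = pr R t {ξ | (⇑ξ : ℤ → ℤ) ∈ E} := by
  classical
  unfold prob pr
  congr 1
  refine Finset.sum_congr rfl fun S _ => ?_
  rw [← (hasSum_ptr hMP hEX {ξ : Cfg | (⇑ξ : ℤ → ℤ) ∈ E} ht (ini R S)).tsum_eq]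
  refine tsum_congr fun ξ => ?_
  by_cases h : (⇑ξ : ℤ → ℤ) ∈ E
  · rw [if_pos h, ind_of_mem (E := {ξ : Cfg | (⇑ξ : ℤ → ℤ) ∈ E}) h, one_mul]
  · rw [if_neg h, ind_of_notMem (E := {ξ : Cfg | (⇑ξ : ℤ → ℤ) ∈ E}) h, zero_mul]

theorem wt_nonneg (hMP : S_MP) (hEX : S_EX) (R : ℕ) {t : ℝ} (ht : 0 ≤ t) (ξ : Cfg) : 0 ≤ wt R t ξ :=
  div_nonneg (Finset.sum_nonneg fun S _ => P_nonneg hMP hEX UC _ ht _) (by positivity)

theorem isProb (hMP : S_MP) (hEX : S_EX) (R : ℕ) {t : ℝ} (ht : 0 ≤ t) : IsProbabilityMeasure (lawOf (wt R t)) := by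
  refine ⟨?_⟩
  have h := hasSum_wt hMP hEX R ht univ
  rw [pr_univ hMP hEX R ht] at h
  have h2 := lawOf_apply (wt_nonneg hMP hEX R ht) (E := univ) (a := 1) (h.congr_fun fun ξ => ?_)
  · rw [h2, ENNReal.ofReal_one]
  · rfl

theorem real_eq (hMP : S_MP) (hEX : S_EX) (R : ℕ) {t : ℝ} (ht : 0 ≤ t) (E : Set (ℤ → ℤ)) :
    (lawOf (wt R t)).real E = prob ptr R t E := by
  have h := hasSum_wt hMP hEX R ht {ξ : Cfg | (⇑ξ : ℤ → ℤ) ∈ E}
  rw [prob_eq hMP hEX R ht, Measure.real, lawOf_apply (wt_nonneg hMP hEX R ht) h, ENNReal.toReal_ofReal]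
  unfold pr
  exact div_nonneg (Finset.sum_nonneg fun S _ => P_nonneg hMP hEX UC _ ht _) (by positivity)

/-! ### Consistency -/

theorem Icc_succ (R : ℕ) : Finset.Icc (-((R + 1 : ℕ) : ℤ)) ((R + 1 : ℕ) : ℤ) =
    insert ((R : ℤ) + 1) (insert (-((R : ℤ) + 1)) (Finset.Icc (-(R : ℤ)) R)) := by
  ext k
  rw [Finset.mem_insert, Finset.mem_insert, Finset.mem_Icc, Finset.mem_Icc]
  push_cast
  omega

theorem notMem1 (R : ℕ) : (-((R : ℤ) + 1)) ∉ Finset.Icc (-(R : ℤ)) R := by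
  rw [Finset.mem_Icc]; omega

theorem notMem2 (R : ℕ) : ((R : ℤ) + 1) ∉ insert (-((R : ℤ) + 1)) (Finset.Icc (-(R : ℤ)) R) := by
  rw [Finset.mem_insert, Finset.mem_Icc]; omega

theorem ini_succ (R : ℕ) (S : Finset ℤ) : ini (R + 1) S = ini R S +
    Finsupp.single (-((R : ℤ) + 1)) (if (-((R : ℤ) + 1)) ∈ S then 1 else -1) +
    Finsupp.single ((R : ℤ) + 1) (if ((R : ℤ) + 1) ∈ S then 1 else -1) := by
  unfold ini
  rw [Icc_succ, Finset.sum_insert (notMem2 R), Finset.sum_insert (notMem1 R)]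
  abel

theorem ini_insert (R : ℕ) (S : Finset ℤ) (a : ℤ) (ha : a ∉ Finset.Icc (-(R : ℤ)) R) :
    ini R (insert a S) = ini R S := by
  unfold ini
  refine Finset.sum_congr rfl fun k hk => ?_
  have : k ≠ a := fun h => ha (h ▸ hk)
  have h2 : (k ∈ insert a S) ↔ k ∈ S := by
    rw [Finset.mem_insert]
    exact ⟨fun h => h.resolve_left this, Or.inr⟩
  simp only [h2]

theorem sum_pow_succ (R : ℕ) (f : Cfg → ℝ) :
    ∑ S ∈ (Finset.Icc (-((R + 1 : ℕ) : ℤ)) ((R + 1 : ℕ) : ℤ)).powerset, f (ini R S) =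
      4 * ∑ S ∈ (Finset.Icc (-(R : ℤ)) R).powerset, f (ini R S) := by
  rw [Icc_succ, Finset.sum_powerset_insert (notMem2 R), Finset.sum_powerset_insert (notMem1 R),
    Finset.sum_powerset_insert (notMem1 R)]
  have ha : ((R : ℤ) + 1) ∉ Finset.Icc (-(R : ℤ)) R := fun h => notMem2 R (Finset.mem_insert_of_mem h)
  simp only [ini_insert R _ _ (notMem1 R), ini_insert R _ _ ha]
  ring

theorem step_one {f : Cfg → ℝ} {j : ℤ} {D : ℝ} (h : ∀ η, |f (η + Finsupp.single j 1) - f η| ≤ D) (η : Cfg)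
    (P : Prop) [Decidable P] : |f (η + Finsupp.single j (if P then 1 else -1)) - f η| ≤ D := by
  split_ifs
  · exact h η
  · have h2 := h (η + Finsupp.single j (-1))
    rw [add_assoc, ← Finsupp.single_add, neg_add_cancel, Finsupp.single_zero, add_zero, abs_sub_comm] at h2
    exact h2

theorem pr_step (R : ℕ) (t : ℝ) (E : Set Cfg) (D : ℤ → ℝ)
    (hD : ∀ j η, |UC.P (ind E) t (η + Finsupp.single j 1) - UC.P (ind E) t η| ≤ D j) :
    |pr (R + 1) t E - pr R t E| ≤ D (-((R : ℤ) + 1)) + D ((R : ℤ) + 1) := by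
  have h1 : pr R t E = (∑ S ∈ (Finset.Icc (-((R + 1 : ℕ) : ℤ)) ((R + 1 : ℕ) : ℤ)).powerset,
      UC.P (ind E) t (ini R S)) / 2 ^ (2 * (R + 1) + 1) := by
    rw [sum_pow_succ R (fun η => UC.P (ind E) t η)]
    unfold pr
    have : (2 : ℝ) ^ (2 * (R + 1) + 1) = 4 * 2 ^ (2 * R + 1) := by ring
    rw [this, mul_div_mul_left _ _ (by norm_num)]
  rw [h1]
  unfold pr
  rw [← sub_div, ← Finset.sum_sub_distrib, abs_div, abs_of_pos (show (0 : ℝ) < 2 ^ (2 * (R + 1) + 1) by positivity),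
    div_le_iff₀ (by positivity)]
  refine (Finset.abs_sum_le_sum_abs _ _).trans ?_
  have h2 : ∀ S ∈ (Finset.Icc (-((R + 1 : ℕ) : ℤ)) ((R + 1 : ℕ) : ℤ)).powerset,
      |UC.P (ind E) t (ini (R + 1) S) - UC.P (ind E) t (ini R S)| ≤ D (-((R : ℤ) + 1)) + D ((R : ℤ) + 1) := by
    intro S _
    rw [ini_succ]
    have a1 := step_one (f := fun η => UC.P (ind E) t η) (hD (-((R : ℤ) + 1))) (ini R S) (-((R : ℤ) + 1) ∈ S)
    have a2 := step_one (f := fun η => UC.P (ind E) t η) (hD ((R : ℤ) + 1))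
      (ini R S + Finsupp.single (-((R : ℤ) + 1)) (if (-((R : ℤ) + 1)) ∈ S then 1 else -1)) (((R : ℤ) + 1) ∈ S)
    have a3 := abs_add_le (UC.P (ind E) t (ini R S +
        Finsupp.single (-((R : ℤ) + 1)) (if (-((R : ℤ) + 1)) ∈ S then 1 else -1) +
        Finsupp.single ((R : ℤ) + 1) (if ((R : ℤ) + 1) ∈ S then 1 else -1)) - UC.P (ind E) t (ini R S +
        Finsupp.single (-((R : ℤ) + 1)) (if (-((R : ℤ) + 1)) ∈ S then 1 else -1)))
      (UC.P (ind E) t (ini R S +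
        Finsupp.single (-((R : ℤ) + 1)) (if (-((R : ℤ) + 1)) ∈ S then 1 else -1)) - UC.P (ind E) t (ini R S))
    rw [sub_add_sub_cancel] at a3
    linarith
  refine (Finset.sum_le_sum h2).trans (le_of_eq ?_)
  rw [Finset.sum_const, nsmul_eq_mul, card_pow]
  ring

theorem hk_summable (hHM : S_HM) {t : ℝ} (ht : 0 ≤ t) : Summable (fun k : ℤ => hk t k) :=
  summable_of_sum_le (hHM t ht).1 (hHM t ht).2.1

theorem t_LAW (hMP : S_MP) (hEX : S_EX) (hHM : S_HM) (hKOL : S_KOL) (hDIF : S_DIF) : S_LAW := by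
  refine ⟨fun R t E ht => prob_eq hMP hEX R ht E, fun t ht => ?_⟩
  obtain ⟨D, hD⟩ : ∃ D : ℕ → ℤ → ℝ, D = fun (N : ℕ) (j : ℤ) =>
      Real.exp (2 * t) * ∑ x ∈ Finset.Icc (-(N : ℤ)) N, hk t (j - x) := ⟨_, rfl⟩
  have hs := hk_summable hHM ht
  have hA : ∀ N, Summable (fun R : ℕ => D N (-((R : ℤ) + 1)) + D N ((R : ℤ) + 1)) := by
    intro N
    rw [hD]
    refine Summable.add ?_ ?_
    · refine Summable.mul_left _ (summable_sum fun x _ => ?_)
      refine hs.comp_injective (i := fun R : ℕ => -((R : ℤ) + 1) - x) fun a b h => ?_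
      have h' : -((a : ℤ) + 1) - x = -((b : ℤ) + 1) - x := h
      omega
    · refine Summable.mul_left _ (summable_sum fun x _ => ?_)
      refine hs.comp_injective (i := fun R : ℕ => ((R : ℤ) + 1) - x) fun a b h => ?_
      have h' : ((a : ℤ) + 1) - x = ((b : ℤ) + 1) - x := h
      omega
  have hB : ∀ N R E, Loc N E → |(lawOf (wt (R + 1) t)).real E - (lawOf (wt R t)).real E| ≤
      D N (-((R : ℤ) + 1)) + D N ((R : ℤ) + 1) := by
    intro N R E hE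
    rw [real_eq hMP hEX (R + 1) ht E, real_eq hMP hEX R ht E, prob_eq hMP hEX _ ht, prob_eq hMP hEX _ ht]
    refine pr_step R t _ (D N) fun j η => ?_
    rw [hD]
    exact hDIF N E t j η hE ht
  obtain ⟨μ, hμ, hμ2⟩ := hKOL (fun R => lawOf (wt R t)) (fun N R => D N (-((R : ℤ) + 1)) + D N ((R : ℤ) + 1))
    (fun R => isProb hMP hEX R ht) hA hB
  refine ⟨μ, hμ, fun N E hE => ?_⟩
  have h := hμ2 N E hE
  refine h.congr fun R => ?_
  exact real_eq hMP hEX R ht E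

end Pool.Agent.D0H52.UR
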